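import Pool.Agent.V1132.CN.Fp
import Pool.Agent.V1132.CN.Tors
import Pool.Agent.V1132.CN.Mod

set_option autoImplicit false

/-! The least norm of a boundary matrix in a free resolution of the trivial module of a group of type
FP is zero in large degrees if the group is of type FF, and it is exactly `3 / √2` in all degrees if
the group is not of type FF. This holds for the operator norm on `ℓ²(G)` of the matrix, and for the
operator norm of its 0/1 support pattern. -/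

namespace Pool.Agent.Results.MP_d19827_al.CriticalBoundary

open Matrix TH57.Thr TH57.FF TH6.PF V1132.CN.Bnd V1132.CN.Tors Pool.Agent.V1132.CN

/-- `G` is of type FP: the trivial module `ℤ` has a resolution of finite length by finitely generated
projective `ℤG`-modules. -/
def FP (G : Type) [Group G] : Prop :=
  ∃ (P : ℕ → Type) (_ : ∀ i, AddCommGroup (P i)) (_ : ∀ i, Module (MonoidAlgebra ℤ G) (P i))
    (d : ∀ i, P (i + 1) →ₗ[MonoidAlgebra ℤ G] P i) (ε : P 0 →+ ℤ) (n : ℕ),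
    (∀ i, Module.Finite (MonoidAlgebra ℤ G) (P i)) ∧
    (∀ i, Module.Projective (MonoidAlgebra ℤ G) (P i)) ∧
    (∀ i, n < i → Subsingleton (P i)) ∧
    (∀ (g : G) (x : P 0), ε (MonoidAlgebra.of ℤ G g • x) = ε x) ∧
    Function.Surjective ε ∧
    (∀ x : P 0, ε x = 0 ↔ x ∈ LinearMap.range (d 0)) ∧
    (∀ i, LinearMap.range (d (i + 1)) = LinearMap.ker (d i))

/-- `G` is of type FF: the trivial module `ℤ` has a resolution of finite length by finitely generated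
free `ℤG`-modules. -/
def FF (G : Type) [Group G] : Prop := ∃ N, FFle G N

/-- There is an exact sequence `F_{n+1} → F_n → ... → F_0 → ℤ → 0` of `ℤG`-modules in which all `F_i`
are free with finite bases (`Bd` says this, and that `A` is the matrix of `F_{n+1} → F_n`). -/
def FPn (G : Type) [Group G] (n : ℕ) : Prop :=
  ∃ (m k : ℕ) (A : Matrix (Fin m) (Fin k) (MonoidAlgebra ℤ G)), Bd G n A

/-- There is such an exact sequence in which the 0/1 support pattern of the matrix of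
`F_{n+1} → F_n` has norm at most `c`. -/
def HasPat (G : Type) [Group G] (n : ℕ) (c : ℝ) : Prop :=
  ∃ (m k : ℕ) (A : Matrix (Fin m) (Fin k) (MonoidAlgebra ℤ G)), Bd G n A ∧ ThinLE A c

/-- There is such an exact sequence in which the matrix of `F_{n+1} → F_n` has norm at most `c`. -/
def HasOp (G : Type) [Group G] (n : ℕ) (c : ℝ) : Prop :=
  ∃ (m k : ℕ) (A : Matrix (Fin m) (Fin k) (MonoidAlgebra ℤ G)), Bd G n A ∧ NormLE A c

/-- The least norm of the pattern of the matrix of `F_{n+1} → F_n`. -/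
noncomputable def patBd (G : Type) [Group G] (n : ℕ) : ℝ := sInf {c : ℝ | 0 ≤ c ∧ HasPat G n c}

/-- The least norm of the matrix of `F_{n+1} → F_n`. -/
noncomputable def opBd (G : Type) [Group G] (n : ℕ) : ℝ := sInf {c : ℝ | 0 ≤ c ∧ HasOp G n c}

theorem up {G : Type} [Group G] {n : ℕ} (h : FPn G n) (c : ℝ) (hc : 3 / Real.sqrt 2 < c) :
    HasPat G n c ∧ HasOp G n c := by
  obtain ⟨m, k, A, hA⟩ := h
  exact ⟨Bd_thin n A hA c (sq_gt_of_gt hc).2, Bd_red n A hA c (sq_gt_of_gt hc).2⟩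

theorem one_lt_thr : (1 : ℝ) < 3 / Real.sqrt 2 := by
  by_contra h
  push Not at h
  have h2 : (3 / Real.sqrt 2) ^ 2 ≤ 1 ^ 2 := pow_le_pow_left₀ thr_pos.le h 2
  rw [thr_sq] at h2
  norm_num at h2

theorem norm_max {G : Type} [Group G] {m k : ℕ} {A : Matrix (Fin m) (Fin k) (MonoidAlgebra ℤ G)}
    {c : ℝ} (h0 : 0 ≤ c) (h : NormLE A c) : NormLE A (max c 1) := fun x =>
  (h x).trans (mul_le_mul_of_nonneg_right (pow_le_pow_left₀ h0 (le_max_left _ _) 2) (by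
    unfold normSq
    exact Finset.sum_nonneg fun _ _ => Finset.sum_nonneg fun _ _ => sq_nonneg _))

theorem below {G : Type} [Group G] (htf : ∀ g : G, IsOfFinOrder g → g = 1) {n : ℕ} (c : ℝ)
    (h0 : 0 ≤ c) (hc : c < 3 / Real.sqrt 2) (h : HasPat G n c ∨ HasOp G n c) :
    FFle G (n + 3) := by
  have htf' : ∀ g : G, ∀ k : ℕ, 0 < k → g ^ k = 1 → g = 1 := fun g k hk h =>
    htf g (isOfFinOrder_iff_pow_eq_one.2 ⟨k, hk, h⟩)
  rcases h with ⟨m, k, A, hA, hB⟩ | ⟨m, k, A, hA, hB⟩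
  · exact thin_boundary htf' n A hA (max c 1) (lt_max_of_lt_right one_pos)
      (sq_lt_of_lt (le_max_of_le_left h0) (max_lt hc one_lt_thr)) (norm_max h0 hB)
  · exact small_boundary htf' n A hA (max c 1) (lt_max_of_lt_right one_pos)
      (sq_lt_of_lt (le_max_of_le_left h0) (max_lt hc one_lt_thr)) (norm_max h0 hB)

theorem zero_norm {G : Type} [Group G] {m k : ℕ} (hm : m = 0)
    (B : Matrix (Fin m) (Fin k) (MonoidAlgebra ℤ G)) : NormLE B 0 := by
  have : IsEmpty (Fin m) := by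
    rw [hm]
    infer_instance
  intro x
  have hx : x ᵥ* toReal B = 0 := by
    funext j
    simp [Matrix.vecMul, dotProduct]
  rw [hx]
  simp [normSq]

theorem has_zero {G : Type} [Group G] {n : ℕ} (h : FFle G n) : HasPat G n 0 ∧ HasOp G n 0 := by
  obtain ⟨k, D, h1, h2⟩ := Bd_of_FF h
  have h3 := h2 (n + 1) (Nat.lt_succ_self n)
  exact ⟨⟨k (n + 1), k n, D n, h1 n, zero_norm h3 _⟩, ⟨k (n + 1), k n, D n, h1 n, zero_norm h3 _⟩⟩

theorem FFle_mono {G : Type} [Group G] {n N : ℕ} (hn : n ≤ N) (h : FFle G n) : FFle G N := by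
  obtain ⟨P, iA, iM, d, ε, h1, h2, h3, h4⟩ := h
  exact ⟨P, iA, iM, d, ε, h1, h2, fun i hi => h3 i (lt_of_le_of_lt hn hi), h4⟩

theorem FP_tf {G : Type} [Group G] (h : FP G) : ∀ g : G, IsOfFinOrder g → g = 1 := by
  obtain ⟨P, iA, iM, d, ε, n, h1, h2, h3, h4, h5, h6, h7⟩ := h
  exact torsionFree P d ε n h1 h2 h3 h4 h5 h6 h7

theorem FP_n {G : Type} [Group G] (h : FP G) (n : ℕ) : FPn G n := by
  obtain ⟨P, iA, iM, d, ε, N, h1, h2, h3, h4, h5, h6, h7⟩ := h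
  obtain ⟨m, k, A, hA, _⟩ := Bd_of_FP P d ε h1 h2 h4 h5 h6 h7 n
  exact ⟨m, k, A, hA⟩

theorem inf_zero {T : ℝ → Prop} (h : T 0) : sInf {c : ℝ | 0 ≤ c ∧ T c} = 0 :=
  le_antisymm (csInf_le ⟨0, fun _ hc => hc.1⟩ ⟨le_rfl, h⟩) (Real.sInf_nonneg fun _ hc => hc.1)

theorem result :
    -- every group of type FP_{n+1}
    (∀ (G : Type) [Group G] (n : ℕ), FPn G n →
      (∀ c : ℝ, 3 / Real.sqrt 2 < c → HasPat G n c ∧ HasOp G n c) ∧
      (0 ≤ patBd G n ∧ patBd G n ≤ 3 / Real.sqrt 2) ∧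
      (0 ≤ opBd G n ∧ opBd G n ≤ 3 / Real.sqrt 2)) ∧
    -- every torsion-free group of type FP_{n+1}
    (∀ (G : Type) [Group G], (∀ g : G, IsOfFinOrder g → g = 1) → ∀ n : ℕ, FPn G n →
      (patBd G n < 3 / Real.sqrt 2 ∨ opBd G n < 3 / Real.sqrt 2 → FFle G (n + 3)) ∧
      (FFle G n → patBd G n = 0 ∧ opBd G n = 0) ∧
      (¬ FF G → patBd G n = 3 / Real.sqrt 2 ∧ opBd G n = 3 / Real.sqrt 2)) ∧
    -- every group of type FP
    (∀ (G : Type) [Group G], FP G →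
      (FF G → ∃ N, ∀ n, N ≤ n → patBd G n = 0 ∧ opBd G n = 0) ∧
      (¬ FF G → ∀ n, patBd G n = 3 / Real.sqrt 2 ∧ opBd G n = 3 / Real.sqrt 2)) ∧
    -- the conjecture
    ((∀ (G : Type) [Group G], FP G → FF G) ↔
      ∀ (G : Type) [Group G], FP G → ∃ n, patBd G n ≠ 3 / Real.sqrt 2) ∧
    (∀ (n : ℕ) (c : ℝ), 3 / Real.sqrt 2 < c →
      ((∀ (G : Type) [Group G], FP G → FF G) ↔
        ∀ (G : Type) [Group G], FP G → HasPat G n c → HasOp G n c → FF G)) ∧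
    (∀ (n : ℕ) (c : ℝ), 0 ≤ c → c < 3 / Real.sqrt 2 →
      ∀ (G : Type) [Group G], FP G → HasPat G n c ∨ HasOp G n c → FF G) := by
  have A1 : ∀ (G : Type) [Group G] (n : ℕ), FPn G n →
      ∀ c : ℝ, 3 / Real.sqrt 2 < c → c ∈ {c : ℝ | 0 ≤ c ∧ HasPat G n c} := fun G _ n h c hc =>
    ⟨(sq_gt_of_gt hc).1.le, (up h c hc).1⟩
  have A2 : ∀ (G : Type) [Group G] (n : ℕ), FPn G n →
      ∀ c : ℝ, 3 / Real.sqrt 2 < c → c ∈ {c : ℝ | 0 ≤ c ∧ HasOp G n c} := fun G _ n h c hc =>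
    ⟨(sq_gt_of_gt hc).1.le, (up h c hc).2⟩
  have P1 : ∀ (G : Type) [Group G] (n : ℕ), FPn G n →
      (∀ c : ℝ, 3 / Real.sqrt 2 < c → HasPat G n c ∧ HasOp G n c) ∧
      (0 ≤ patBd G n ∧ patBd G n ≤ 3 / Real.sqrt 2) ∧
      (0 ≤ opBd G n ∧ opBd G n ≤ 3 / Real.sqrt 2) := fun G _ n h =>
    ⟨fun c hc => up h c hc,
      ⟨Real.sInf_nonneg fun c hc => hc.1, sInf_le_thr (fun c hc => hc.1) _ (A1 G n h)⟩,
      ⟨Real.sInf_nonneg fun c hc => hc.1, sInf_le_thr (fun c hc => hc.1) _ (A2 G n h)⟩⟩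
  have P2 : ∀ (G : Type) [Group G], (∀ g : G, IsOfFinOrder g → g = 1) → ∀ n : ℕ, FPn G n →
      (patBd G n < 3 / Real.sqrt 2 ∨ opBd G n < 3 / Real.sqrt 2 → FFle G (n + 3)) ∧
      (FFle G n → patBd G n = 0 ∧ opBd G n = 0) ∧
      (¬ FF G → patBd G n = 3 / Real.sqrt 2 ∧ opBd G n = 3 / Real.sqrt 2) := by
    intro G _ htf n h
    have hb : patBd G n < 3 / Real.sqrt 2 ∨ opBd G n < 3 / Real.sqrt 2 → FFle G (n + 3) := by
      rintro (hlt | hlt)
      · obtain ⟨c, hc, hc'⟩ := exists_lt_of_csInf_lt ⟨_, A1 G n h _ (lt_add_one _)⟩ hlt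
        exact below htf c hc.1 hc' (Or.inl hc.2)
      · obtain ⟨c, hc, hc'⟩ := exists_lt_of_csInf_lt ⟨_, A2 G n h _ (lt_add_one _)⟩ hlt
        exact below htf c hc.1 hc' (Or.inr hc.2)
    refine ⟨hb, fun hF => ⟨inf_zero (has_zero hF).1, inf_zero (has_zero hF).2⟩, fun hF => ?_⟩
    have h1 := P1 G n h
    constructor
    · by_contra hne
      exact hF ⟨_, hb (Or.inl (lt_of_le_of_ne h1.2.1.2 hne))⟩
    · by_contra hne
      exact hF ⟨_, hb (Or.inr (lt_of_le_of_ne h1.2.2.2 hne))⟩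
  have P3 : ∀ (G : Type) [Group G], FP G →
      (FF G → ∃ N, ∀ n, N ≤ n → patBd G n = 0 ∧ opBd G n = 0) ∧
      (¬ FF G → ∀ n, patBd G n = 3 / Real.sqrt 2 ∧ opBd G n = 3 / Real.sqrt 2) := by
    intro G _ hG
    refine ⟨fun ⟨N, hN⟩ => ⟨N, fun n hn => ?_⟩, fun hF n => ?_⟩
    · exact (P2 G (FP_tf hG) n (FP_n hG n)).2.1 (FFle_mono hn hN)
    · exact (P2 G (FP_tf hG) n (FP_n hG n)).2.2 hF
  refine ⟨P1, P2, P3, ⟨fun h G _ hG => ?_, fun h G _ hG => ?_⟩, fun n c hc =>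
    ⟨fun h G _ hG _ _ => h G hG, fun h G _ hG => ?_⟩, fun n c h0 hc G _ hG hB => ?_⟩
  · obtain ⟨N, hN⟩ := (P3 G hG).1 (h G hG)
    exact ⟨N, by rw [(hN N le_rfl).1]; exact thr_pos.ne⟩
  · by_contra hF
    obtain ⟨n, hn⟩ := h G hG
    exact hn ((P3 G hG).2 hF n).1
  · have h1 := up (FP_n hG n) c hc
    exact h G hG h1.1 h1.2
  · exact ⟨_, below (FP_tf hG) c h0 hc hB⟩

end Pool.Agent.Results.MP_d19827_al.CriticalBoundary
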